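import Pool.Agent.Run7.h931.MK.Fin

/-!
# Goldbach-Knjzek partitions of `m - y`, `y` in a sparse set of length `m^(1/3) log^C m`, for EVERY integer `m`

From Mathlib: `ZMod.stdAddChar` is the additive character `j ↦ exp (2 π i j / q)` of the integers modulo `q`, and `ZMod.val`
is the least residue in `[0, q)`.

Method: the asymptotic formula for primes in almost all intervals of the length `N^(1/3) log^C N` with characters of the
conductor and Fourier variables of polylogarithmic size (projects CR and MK of this run; Heath-Brown's identity, mean values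
of Dirichlet polynomials, Ingham's and Huxley's estimates without loss), Gallagher's lemma and Parseval's identity modulo
`M` on the major arcs, and trivial estimates elsewhere, since the Fourier coefficients of the sparse set are small there.
-/

set_option autoImplicit false

namespace Pool.Agent.Results.MP_73b532_nt.SparseThirdSummand

open Finset

/-- The Fourier coefficients of the residues `y i`, `i ∈ s`, modulo `q` at the nonzero frequencies are at most
`η` times the number of the residues: `|∑ i ∈ s, e(k y_i / q)| ≤ η |s|` for all `k ≠ 0` modulo `q`. -/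
def Flat {ι : Type} (q : ℕ) [NeZero q] (η : ℝ) (s : Finset ι) (y : ι → ZMod q) : Prop :=
  ∀ k : ZMod q, k ≠ 0 → ‖∑ i ∈ s, (ZMod.stdAddChar (k * y i) : ℂ)‖ ≤ η * s.card

open Classical in
/-- The number of the primes `p ∈ P` with `√a < p ≤ a / 2` for which `a - p` is a prime. -/
noncomputable def K (P : Finset ℕ) (a : ℕ) : ℕ :=
  (P.filter fun p : ℕ => p.Prime ∧ (a - p).Prime ∧ √(a : ℝ) < p ∧ 2 * p ≤ a).card

/-- Let `T` and `ε > 0` be given. There are numbers `V`, `C`, `D`, `E` such that for all large `N` the following holds.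

Let `q` be an integer with `N^(1/3) log^C N ≤ q ≤ N / log^D N` and let `y i`, `i ∈ s`, be a nonempty finite family of residues modulo
`q` whose nonzero Fourier coefficients are at most `|s| / log^V N`; let `0 ≤ y_i < q` be the least residues.

**(1)** For EVERY integer `m` with `N / log^T N ≤ m ≤ N` the sum over `i ∈ s` of the numbers of the primes `p` with
`√(m - y_i) < p ≤ (m - y_i) / 2` for which `m - y_i - p` is a prime is `(1 ± ε) |s| m / (2 log^2 N)`. So every such `m`, even
or odd, is `y_i + p + p'` for an `i ∈ s` and primes `p ≤ p'` with `p > √(m - y_i)`: a Goldbach-Knjzek partition of `m - y_i`.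

**(2)** More generally let `P` be ANY set of primes `p` with `√m < p ≤ (m - q) / 2`, `m ≤ N`, which has at least
`N / log^T N` members. The number of the pairs of a prime `p ∈ P` and an `i ∈ s` for which `m - y_i - p` is a prime
is `(1 ± ε) |P| |s| / log N` (and all of these are Goldbach-Knjzek partitions of `m - y_i`).

**(3)** (examples) For every prime `q` between `N^(1/3)` and `N` there is an integer `2 ≤ R ≤ log^E N` for which the quotients
`j / r` of the integers `0 ≤ j < R^2` by the primes `r ≤ R` are such a family modulo `q`; it has at most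
`log^(3 E) N` members. -/
theorem result (T : ℕ) (ε : ℝ) (hε : 0 < ε) : ∃ V C D E N₀ : ℕ, ∀ N : ℕ, N₀ ≤ N →
    (∀ (q : ℕ) [NeZero q], (N : ℝ) ^ (1 / 3 : ℝ) * Real.log N ^ C ≤ q → (q : ℝ) * Real.log N ^ D ≤ N →
      ∀ {ι : Type} (s : Finset ι) (y : ι → ZMod q), s.Nonempty → Flat q (1 / Real.log N ^ V) s y →
      ∀ m : ℕ, m ≤ N →
        ((N : ℝ) / Real.log N ^ T ≤ m →
          |(∑ i ∈ s, K (Icc 1 m) (m - (y i).val) : ℕ) - s.card * ((m : ℝ) / (2 * Real.log N ^ 2))| ≤
            ε * (s.card * ((m : ℝ) / (2 * Real.log N ^ 2)))) ∧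
        ∀ P : Finset ℕ, (∀ p ∈ P, p.Prime ∧ √(m : ℝ) < p ∧ 2 * p + q ≤ m) → (N : ℝ) / Real.log N ^ T ≤ P.card →
          |(∑ i ∈ s, K P (m - (y i).val) : ℕ) - P.card * s.card / Real.log N| ≤ ε * (P.card * s.card / Real.log N)) ∧
    ∀ (q : ℕ) [Fact q.Prime], (N : ℝ) ^ (1 / 3 : ℝ) ≤ q → q ≤ N → ∃ R : ℕ, 2 ≤ R ∧ (R : ℝ) ≤ Real.log N ^ E ∧
      Flat q (1 / Real.log N ^ V) (((Icc 1 R).filter Nat.Prime) ×ˢ range (R ^ 2))
        (fun z => ((z.2 : ℕ) : ZMod q) * ((z.1 : ℕ) : ZMod q)⁻¹) := by
  classical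
  obtain ⟨V₁, C₁, D₁, n₁, h1⟩ := Pool.Agent.Run7.h931.MK.knj_all Pool.Agent.Run7.h931.MK.t31 T ε hε
  obtain ⟨V₂, C₂, D₂, n₂, h2⟩ := Pool.Agent.Run7.h931.MK.knj_set Pool.Agent.Run7.h931.MK.t31 T ε hε
  obtain ⟨E, n₄, h4⟩ := Pool.Agent.Run7.h931.MK.examples (V₁ + V₂)
  obtain ⟨n₅, h5⟩ := Filter.eventually_atTop.1 (Pool.Agent.N384.MQ.ev_log_ge 1)
  refine ⟨V₁ + V₂, C₁ + C₂, D₁ + D₂, E, n₁ + n₂ + n₄ + n₅, fun N hN => ⟨?_, ?_⟩⟩
  · intro q _ hq1 hq2 ι s y hs hf m hm
    have hL : 1 ≤ Real.log N := h5 N (by omega)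
    have hN3 : 0 ≤ (N : ℝ) ^ (1 / 3 : ℝ) := by positivity
    have lo : ∀ C : ℕ, C ≤ C₁ + C₂ → (N : ℝ) ^ (1 / 3 : ℝ) * Real.log N ^ C ≤ q := fun C hC =>
      (mul_le_mul_of_nonneg_left (pow_le_pow_right₀ hL hC) hN3).trans hq1
    have hi : ∀ D : ℕ, D ≤ D₁ + D₂ → (q : ℝ) * Real.log N ^ D ≤ N := fun D hD =>
      (mul_le_mul_of_nonneg_left (pow_le_pow_right₀ hL hD) (Nat.cast_nonneg q)).trans hq2
    have fl : ∀ V : ℕ, V ≤ V₁ + V₂ → Pool.Agent.N384.MQ.Flat q (1 / Real.log N ^ V) s y := fun V hV =>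
      Pool.Agent.Run7.h931.MK.flat_pow hL hV hf
    have key : ∀ P : Finset ℕ, (∑ i ∈ s, K P (m - (y i).val) : ℕ) = Pool.Agent.Run7.h931.MK.knj q s y P m := by
      intro P
      unfold Pool.Agent.Run7.h931.MK.knj K
      rw [card_filter, sum_product_right]
      apply sum_congr rfl
      intro i _
      rw [card_filter]
    refine ⟨fun hmN => ?_, fun P hP hPN => ?_⟩
    · have := h1 N (by omega) q (lo _ (by omega)) (hi _ (by omega)) s y hs (fl _ (by omega)) m hm
        (by rwa [div_le_iff₀ (by positivity)] at hmN)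
      rw [key, show (m : ℝ) / (2 * Real.log N ^ 2) = m / 2 / Real.log N ^ 2 by rw [div_div]]
      exact this
    · have := h2 N (by omega) q (lo _ (by omega)) (hi _ (by omega)) s y hs (fl _ (by omega)) m hm P hP
        (by rwa [div_le_iff₀ (by positivity)] at hPN)
      rw [key]
      exact this
  · intro q _ hq1 hq2
    exact h4 N (by omega) q hq1 hq2

end Pool.Agent.Results.MP_73b532_nt.SparseThirdSummand
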