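import Pool.Agent.Run7.h844.RP.GoldN
import Pool.Agent.Results.MP_73b532_nt.ResidueFamilies

/-!
# The Goldbach-Knjzek conjecture for all the integers near the values of generalised polynomials at primes

Definitions used (in `Pool.Agent.H560R3.GB`): `C₂`: the twin prime constant `∏_{p > 2} (1 - 1 / (p - 1) ^ 2)`; `sing m`:
the singular series `2 C₂ ∏_{p ∣ m, p > 2} (p - 1) / (p - 2)`.

Method: exponential sums over primes with the phase of a generalised polynomial: derivative bounds uniform in the
coefficients, van der Corput differencing of all orders, bilinear sums, Vaughan's identity (after `Pool.Agent.H895R3.NK`,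
`Pool.Agent.H373R2.T7`); a discrete Fejér kernel for the passage from real numbers to their integer parts, and a kernel
estimate for the concentration on short intervals which needs only the large frequencies (library
`Pool.Agent.Run7.h844.RP`, after `Pool.Agent.N384.MQ`, `Pool.Agent.N193.PS`). The passage from such exponential sums to representations in windows is
from the starting files (`Pool.Agent.W93.PG`, `Pool.Agent.TH872`), in a generic form: `Pool.Agent.N625.DY.I`.
-/

set_option autoImplicit false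

namespace Pool.Agent.Results.MP_73b532_nt.ValuesAtPrimes

open Finset Pool.Agent.H560R3.GB

/-- The generalised polynomial `∑ a x * t ^ x`, `x ∈ F`, with real exponents and coefficients. -/
noncomputable def genPoly (F : Finset ℝ) (a : ℝ → ℝ) (t : ℝ) : ℝ := ∑ x ∈ F, a x * t ^ x

/-- `c` is the largest exponent; it is positive and not an integer, and its coefficient is not zero. -/
def Leading (F : Finset ℝ) (a : ℝ → ℝ) (c : ℝ) : Prop :=
  c ∈ F ∧ (∀ x ∈ F, x ≤ c) ∧ 0 < c ∧ (∀ m : ℕ, c ≠ m) ∧ a c ≠ 0

open Classical in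
/-- The number of the primes `p` in the window `(y₁, y₂]` with `√(2 n) < p ≤ n` for which `2 n - p` is a prime. -/
noncomputable def K (n y₁ y₂ : ℕ) : ℕ :=
  ((Ioc y₁ y₂).filter (fun p : ℕ => p.Prime ∧ (2 * n - p).Prime ∧ √((2 * n : ℕ) : ℝ) < p ∧ p ≤ n)).card

/-- For all windows `(y₁, y₂] ⊆ (0, n]` of length at least `n / log ^ A n` there is a prime `p` with
`√(2 n) < p ≤ n` and `y₁ < p ≤ y₂` for which `2 n - p` is a prime, and the number of these primes is
`sing (2 n) * (y₂ - y₁) / log ^ 2 (2 n)` up to a relative error of at most `ε`. -/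
def Holds (ε : ℝ) (A n : ℕ) : Prop :=
  ∀ y₁ y₂ : ℕ, y₁ < y₂ → y₂ ≤ n → (n : ℝ) / Real.log n ^ A ≤ (y₂ : ℝ) - y₁ →
    (∃ p : ℕ, p.Prime ∧ (2 * n - p).Prime ∧ √((2 * n : ℕ) : ℝ) < p ∧ p ≤ n ∧ y₁ < p ∧ p ≤ y₂) ∧
    |(K n y₁ y₂ : ℝ) - sing (2 * n) * (((y₂ : ℝ) - y₁) / Real.log (2 * n : ℕ) ^ 2)| ≤
      ε * (sing (2 * n) * (((y₂ : ℝ) - y₁) / Real.log (2 * n : ℕ) ^ 2))

/-- `Holds` for all the integers `m > 0` at a distance of at most `R` from the real number `y`. -/
def Near (ε : ℝ) (A : ℕ) (R y : ℝ) : Prop := ∀ m : ℕ, 0 < m → |(m : ℝ) - y| ≤ R → Holds ε A m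

open Classical in
/-- Let `f` be a generalised polynomial whose largest exponent `c` is positive and not an integer, and let `A`, `W`, `U` and
`ε > 0` be fixed. If `X` is large and `z` is any real number with `|z| ≤ X ^ c`, then all the primes `X < p ≤ 2 X`, with at
most `X / log ^ U X` exceptions, have the following property: for ALL the integers `n > 0` at a distance of at most
`log ^ W X` from `f(p) + z` there is a prime `q` with `√(2 n) < q ≤ n` for which `2 n - q` is a prime (as in the problem), even in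
every window `(y₁, y₂] ⊆ (0, n]` of a length of at least `n / log ^ A n`, and the number of these primes `q` is as predicted,
up to a relative error of at most `ε`. -/
theorem result (F : Finset ℝ) (a : ℝ → ℝ) (c : ℝ) (hF : Leading F a c) (A W U : ℕ) (ε : ℝ) (hε : 0 < ε) :
    ∃ X₀ : ℕ, ∀ X : ℕ, X₀ ≤ X → ∀ z : ℝ, |z| ≤ (X : ℝ) ^ c →
      (((Ioc X (2 * X)).filter fun p : ℕ => p.Prime ∧ ¬ Near ε A (Real.log X ^ W) (genPoly F a p + z)).card : ℝ) ≤
        X / Real.log X ^ U := by
  obtain ⟨m₀, hm⟩ := Pool.Agent.Results.MP_73b532_nt.ResidueFamilies.holds_of A ε hε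
  exact Pool.Agent.Run7.h844.RP.gold_primes2 F c hF.1 hF.2.2.2.1 hF.2.2.1 hF.2.1 a hF.2.2.2.2 (A + 1) W U m₀
    (min ε (1 / 2) / 2) (div_pos (lt_min hε (by norm_num)) (by norm_num))
    (Pool.Agent.Results.MP_73b532_nt.ResidueFamilies.Holds ε A) (fun n hn hw => hm n (by omega) hw)

end Pool.Agent.Results.MP_73b532_nt.ValuesAtPrimes
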